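import Pool.Agent.Work.MP_8c9686_lc_T.Main

/-!
# The system `T` with eager variable elimination is complete

The definitions used in the statement are in `Pool/Agent/Work/MP_8c9686_lc/Defs.lean`.
-/

open Pool.Agent.Work.MP_8c9686_lc

namespace Pool.Agent.Results.MP_8c9686_lc.EagerTComplete

/-- For every signature, every set `E` of equations, every system `S` and every `E`-unifier `θ`
of `S`, some eager derivation of `T` from `S` reaches a solved system `S'` with
`σ_{S'} ≤_E θ [Var(S)]`. -/
theorem result (F : Type*) (ar : F → ℕ) (E : Set (Term F ar × Term F ar)) (S : Sys F ar)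
    (θ : ℕ → Term F ar) (h : Unifies E θ S) : Reaches E (StepT E) S θ :=
  Pool.Agent.Work.MP_8c9686_lc_T.eagerT_complete h

end Pool.Agent.Results.MP_8c9686_lc.EagerTComplete
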